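import Pool.Agent.TH54.BU.WindF
import Pool.Agent.Y210.MON.Wind

/-!
# Greendlinger property for a family of lines, variable exponents

Copy of the end of `Pool.Agent.TH54.BU.WindF`.
-/

set_option autoImplicit false

namespace Pool.Agent.Y210.MON

open Relation Pool.Agent.TH54.BU

section

variable {G : Type*} [Group G]
variable {A : Type*} [Group A] (φ : A →* G)
variable {H : GH G} {c θ T : ℕ} (L : LS H c θ T)
variable (hφ : Function.Surjective φ) {n : L.ι → ℕ} (hn : ∀ i, 40 * L.thr + 1 ≤ n i) (r : L.ι → A)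
  (hr : ∀ i, φ (r i) = L.x i ^ n i)
  (hc : ∀ i a, φ a ∈ Subgroup.zpowers (L.x i) → a * r i = r i * a)

/-- the projection system of the lines `u⟨x i⟩` -/
noncomputable def wfSys : @Wind.Sys A G L.WLine _ (wfActV φ) (wfActL φ L) := by
  letI := wfActV φ
  letI := wfActL φ L
  have smulV : ∀ (g : A) (v : G), g • v = φ g * v := fun _ _ => rfl
  have smulL : ∀ (g : A) (Y : L.WLine), g • Y = (⟨Y.1, φ g • Y.2⟩ : L.WLine) := fun _ _ => rfl
  have outL : ∀ Y : L.WLine, ((Y.2.out : G) : G ⧸ Subgroup.zpowers (L.x Y.1)) = Y.2 :=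
    fun Y => QuotientGroup.out_eq' Y.2
  have onL : ∀ (Y : L.WLine) (v : G), (v : G ⧸ Subgroup.zpowers (L.x Y.1)) = Y.2 →
      ∃ k : ℤ, v = Y.2.out * L.x Y.1 ^ k := by
    intro Y v hv
    have h2 : ((Y.2.out : G) : G ⧸ Subgroup.zpowers (L.x Y.1)) = v := by rw [outL, hv]
    obtain ⟨k, hk⟩ := QuotientGroup.eq.1 h2
    have h3 : L.x Y.1 ^ k = (Y.2.out)⁻¹ * v := hk
    exact ⟨k, by rw [h3, mul_inv_cancel_left]⟩
  refine
    { adj := fun u v => H.d u v ≤ 1
      on := fun Y v => (v : G ⧸ Subgroup.zpowers (L.x Y.1)) = Y.2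
      d := fun Y p q => (L.s Y.1 Y.2.out p q).natAbs
      rot := fun Y => Subgroup.zpowers (wfLft φ L hφ Y * r Y.1 * (wfLft φ L hφ Y)⁻¹)
      th := L.thr
      T := fun Y => n Y.1
      adj_smul := ?_
      conn := H.wf_conn
      on_smul := ?_
      d_self := ?_
      d_comm := ?_
      d_tri := ?_
      d_smul := ?_
      d_adj := ?_
      line_ne := fun Y => ⟨Y.2.out, outL Y⟩
      hT := fun Y => hn Y.1
      beh := ?_
      rot_conj := ?_
      rot_fix := ?_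
      rot_big := ?_ }
  · intro g u v h
    rw [smulV, smulV, H.d_mul]
    exact h
  · intro g Y v h
    show ((φ g * v : G) : G ⧸ Subgroup.zpowers (L.x Y.1)) = φ g • Y.2
    rw [← h]
    rfl
  · intro Y u
    rw [L.wf_s_self]
    rfl
  · intro Y u v
    rw [L.wf_s_symm, Int.natAbs_neg]
  · intro Y u v w
    rw [← L.wf_s_add _ _ u v w]
    exact Int.natAbs_add_le _ _
  · intro g Y u v
    rw [smulV, smulV]
    have h1 : (((g • Y).2.out : G) : G ⧸ Subgroup.zpowers (L.x Y.1)) = ((φ g * Y.2.out : G)) := by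
      have h2 := outL (g • Y)
      have h3 : (g • Y).2 = φ g • Y.2 := rfl
      have h4 : φ g • Y.2 = ((φ g * Y.2.out : G) : G ⧸ Subgroup.zpowers (L.x Y.1)) := by
        conv_lhs => rw [← outL Y]
        rfl
      exact (h2.trans h3).trans h4
    show (L.s Y.1 (g • Y).2.out (φ g * u) (φ g * v)).natAbs = _
    rw [L.wf_s_congr Y.1 h1, L.wf_s_mul]
  · intro Y u v h
    exact L.wf_s_adj h Y.1 Y.2.out
  · intro Y Z v hYZ
    have h1 : Y.1 = Z.1 → (Y.2.out)⁻¹ * Z.2.out ∉ Subgroup.zpowers (L.x Y.1) := by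
      obtain ⟨i, Y⟩ := Y
      obtain ⟨j, Z⟩ := Z
      rintro hij h2
      dsimp only at hij h2
      subst hij
      apply hYZ
      have h3 := QuotientGroup.eq.2 h2
      have h4 : Y = Z := by
        rw [← QuotientGroup.out_eq' Y, ← QuotientGroup.out_eq' Z]
        exact h3
      rw [h4]
    rcases L.wf_beh h1 v with h | h
    · left
      intro w hw
      obtain ⟨k, rfl⟩ := onL Z w hw
      exact h k
    · right
      intro w hw
      obtain ⟨k, rfl⟩ := onL Y w hw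
      exact h k
  · intro g Y ρ hρ
    obtain ⟨k, hk⟩ := hρ
    have h1 : ρ = wfLft φ L hφ Y * r Y.1 ^ k * (wfLft φ L hφ Y)⁻¹ := by
      rw [← conj_zpow]
      exact hk.symm
    have h2 : ((φ (g * wfLft φ L hφ Y) : G) : G ⧸ Subgroup.zpowers (L.x (g • Y).1)) =
        (g • Y).2 := by
      rw [map_mul, wfLft_spec]
      show ((φ g * Y.2.out : G) : G ⧸ Subgroup.zpowers (L.x Y.1)) = φ g • Y.2
      conv_rhs => rw [← outL Y]
      rfl
    have h3 := wf_conj_eq φ L hφ r hc (g • Y) (g * wfLft φ L hφ Y) h2 k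
    refine ⟨k, ?_⟩
    show (wfLft φ L hφ (g • Y) * r Y.1 * (wfLft φ L hφ (g • Y))⁻¹) ^ k = g * ρ * g⁻¹
    have h4 : (g * wfLft φ L hφ Y) * r Y.1 ^ k * (g * wfLft φ L hφ Y)⁻¹ =
      wfLft φ L hφ (g • Y) * r Y.1 ^ k * (wfLft φ L hφ (g • Y))⁻¹ := h3
    rw [conj_zpow, ← h4, h1]
    group
  · intro Y ρ hρ
    obtain ⟨k, hk⟩ := hρ
    have h1 : ρ = wfLft φ L hφ Y * r Y.1 ^ k * (wfLft φ L hφ Y)⁻¹ := by
      rw [← conj_zpow]
      exact hk.symm
    have h2 : φ ρ • Y.2 = Y.2 := by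
      conv_lhs => rw [← outL Y]
      rw [h1, map_mul, map_mul, map_inv, map_zpow, hr, wfLft_spec]
      show ((Y.2.out * (L.x Y.1 ^ n Y.1) ^ k * (Y.2.out)⁻¹ * Y.2.out : G) :
        G ⧸ Subgroup.zpowers (L.x Y.1)) = Y.2
      rw [inv_mul_cancel_right]
      conv_rhs => rw [← outL Y]
      apply QuotientGroup.eq.2
      refine ⟨-((n Y.1 : ℤ) * k), ?_⟩
      show L.x Y.1 ^ (-((n Y.1 : ℤ) * k)) = _
      rw [zpow_neg, zpow_mul, zpow_natCast]
      group
    show (⟨Y.1, φ ρ • Y.2⟩ : L.WLine) = Y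
    rw [h2]
  · intro Y ρ v hρ hne
    obtain ⟨k, hk⟩ := hρ
    have h1 : ρ = wfLft φ L hφ Y * r Y.1 ^ k * (wfLft φ L hφ Y)⁻¹ := by
      rw [← conj_zpow]
      exact hk.symm
    have hk0 : k ≠ 0 := by
      rintro rfl
      apply hne
      rw [h1, zpow_zero]
      group
    have h2 : ρ • v = Y.2.out * L.x Y.1 ^ ((n Y.1 : ℤ) * k) * (Y.2.out)⁻¹ * v := by
      rw [smulV, h1, map_mul, map_mul, map_inv, map_zpow, hr, wfLft_spec, zpow_mul, zpow_natCast]
    show n Y.1 ≤ (L.s Y.1 Y.2.out v (ρ • v)).natAbs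
    rw [h2, L.wf_s_rot, Int.natAbs_mul, Int.natAbs_natCast]
    exact Nat.le_mul_of_pos_right _ (Int.natAbs_pos.2 hk0)

end

theorem gr_ext {G : Type*} [Group G] {H : GH G} {c θ T : ℕ} (L : LS H c θ T)
    {A : Type*} [Group A] (φ : A →* G) (hφ : Function.Surjective φ) {n : L.ι → ℕ}
    (hn : ∀ i, 40 * L.thr + 1 ≤ n i) (r : L.ι → A) (hr : ∀ i, φ (r i) = L.x i ^ n i)
    (hc : ∀ i a, φ a ∈ Subgroup.zpowers (L.x i) → a * r i = r i * a)
    {a : A} (ha : a ∈ Subgroup.normalClosure (Set.range r)) (ha1 : a ≠ 1) (p : G) :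
    ∃ (i : L.ι) (u : G), (n i : ℤ) ≤ |L.s i u p (φ a * p)| + 12 * L.thr := by
  letI := wfActV φ
  letI := wfActL φ L
  have h1 : a ∈ Subgroup.closure {ρ | ∃ Y, ρ ∈ (wfSys φ L hφ hn r hr hc).rot Y} := by
    unfold Subgroup.normalClosure at ha
    refine (Subgroup.closure_mono ?_) ha
    intro g hg
    rw [Group.mem_conjugatesOfSet_iff] at hg
    obtain ⟨b, ⟨i, rfl⟩, hag⟩ := hg
    obtain ⟨w, hw⟩ := isConj_iff.1 hag
    refine ⟨⟨i, ((φ w : G) : G ⧸ Subgroup.zpowers (L.x i))⟩, 1, ?_⟩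
    show (wfLft φ L hφ _ * r i * (wfLft φ L hφ _)⁻¹) ^ (1 : ℤ) = g
    have := wf_conj_eq φ L hφ r hc ⟨i, ((φ w : G) : G ⧸ Subgroup.zpowers (L.x i))⟩ w rfl 1
    dsimp only at this
    rw [conj_zpow, ← this, zpow_one, hw]
  obtain ⟨Y, hY⟩ := Wind.wind_main (wfSys φ L hφ hn r hr hc) p h1 ha1
  refine ⟨Y.1, Y.2.out, ?_⟩
  have h2 : n Y.1 ≤ (L.s Y.1 Y.2.out p (φ a * p)).natAbs + 12 * L.thr := hY
  rw [Int.abs_eq_natAbs]
  exact_mod_cast h2

theorem gr_core {G : Type*} [Group G] {H : GH G} {c θ T : ℕ} (L : LS H c θ T) {n : L.ι → ℕ}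
    (hn : ∀ i, 40 * L.thr + 1 ≤ n i) (m : G)
    (hm : m ∈ Subgroup.normalClosure (Set.range fun i => L.x i ^ n i)) (hne : m ≠ 1) (p : G) :
    ∃ (i : L.ι) (u : G), (n i : ℤ) ≤ |L.s i u p (m * p)| + 12 * L.thr :=
  gr_ext L (MonoidHom.id G) Function.surjective_id hn (fun i => L.x i ^ n i)
    (fun _ => rfl) (by
      rintro i g ⟨k, hk⟩
      have hk' : L.x i ^ k = g := hk
      rw [← hk']
      exact (Commute.refl (L.x i)).zpow_left k |>.pow_right (n i)) hm hne p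

theorem rot_core {G : Type*} [Group G] {H : GH G} {c θ T : ℕ} (L : LS H c θ T) (n : L.ι → ℕ)
    (i : L.ι) (u : G) (k : ℤ) :
    L.rt i u (n i * k) ∈ Subgroup.normalClosure (Set.range fun i => L.x i ^ n i) := by
  unfold LS.rt
  have h1 : L.x i ^ n i ∈ Subgroup.normalClosure (Set.range fun i => L.x i ^ n i) :=
    Subgroup.subset_normalClosure ⟨i, rfl⟩
  have h2 : L.x i ^ ((n i : ℤ) * k) ∈
      Subgroup.normalClosure (Set.range fun i => L.x i ^ n i) := by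
    rw [zpow_mul, zpow_natCast]
    exact Subgroup.zpow_mem _ h1 k
  exact Subgroup.normalClosure_normal.conj_mem _ h2 u

end Pool.Agent.Y210.MON
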