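import Pool.Agent.Y45.MON.StmV
import Pool.Agent.Y210.MON.GrCore

/-!
# V1 of the project MON: the Greendlinger property with variable exponents
-/

set_option autoImplicit false

namespace Pool.Agent.Y210.MON

open Pool.Agent.TH54.BU Pool.Agent.Y45.MON

theorem gr : Pool.Agent.Y45.MON.GrStmt := by
  intro G _ H c θ T L n hn
  exact
    { normal := Subgroup.normalClosure_normal
      rot := fun i u k => rot_core L n i u k
      gr := fun m hm hne p => gr_core L hn m hm hne p }

end Pool.Agent.Y210.MON
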